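import Mathlib

set_option autoImplicit false

namespace Pool.Agent.Results.MP_9d0111_an.PMetricMeanDim

open Filter Topology
open scoped ENNReal

universe u v

/-- A sofic approximation of the group `Γ`: maps `σ i : Γ → Sym(d i)` with `d i → ∞` that are
asymptotically multiplicative and asymptotically free. -/
structure SoficApprox (Γ : Type u) [Group Γ] where
  /-- the degrees -/
  d : ℕ → ℕ
  /-- the maps into the symmetric groups -/
  σ : ∀ i : ℕ, Γ → Equiv.Perm (Fin (d i))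
  tendsto_d : Tendsto d atTop atTop
  tendsto_mul : ∀ s t : Γ, Tendsto
    (fun i => (Nat.card {j : Fin (d i) // σ i (s * t) j = σ i s (σ i t j)} : ℝ) / (d i : ℝ))
    atTop (𝓝 1)
  tendsto_fix : ∀ s : Γ, s ≠ 1 → Tendsto
    (fun i => (Nat.card {j : Fin (d i) // σ i s j = j} : ℝ) / (d i : ℝ)) atTop (𝓝 0)

/-- `ρ` is a dynamically generating continuous pseudometric on `X`. -/
structure IsDynGen (Γ : Type u) [Group Γ] {X : Type v} [TopologicalSpace X] [MulAction Γ X]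
    (ρ : X → X → ℝ) : Prop where
  self : ∀ x, ρ x x = 0
  symm : ∀ x y, ρ x y = ρ y x
  triangle : ∀ x y z, ρ x z ≤ ρ x y + ρ y z
  cont : Continuous fun q : X × X => ρ q.1 q.2
  gen : ∀ x y, x ≠ y → ∃ s : Γ, 0 < ρ (s • x) (s • y)

/-- `ρ_p(φ, ψ) = ((1/d) ∑_j ρ(φ j, ψ j)^p)^(1/p)` for `p < ∞`, and
`ρ_∞(φ, ψ) = max_j ρ(φ j, ψ j)`. -/
noncomputable def rhoP {X : Type v} (ρ : X → X → ℝ) (p : ℝ≥0∞) {d : ℕ} (φ ψ : Fin d → X) : ℝ :=
  if p = ∞ then ⨆ j, ρ (φ j) (ψ j)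
  else ((1 / (d : ℝ)) * ∑ j, ρ (φ j) (ψ j) ^ p.toReal) ^ (1 / p.toReal)

/-- `Map(ρ, F, δ, σ)`: the maps `φ : {1, …, d} → X` with `ρ_2(φ ∘ σ(s), s φ) ≤ δ` for `s ∈ F`. -/
def MapSet {Γ : Type u} [Group Γ] {X : Type v} [MulAction Γ X] (ρ : X → X → ℝ) (F : Finset Γ)
    (δ : ℝ) {d : ℕ} (σ : Γ → Equiv.Perm (Fin d)) : Set (Fin d → X) :=
  {φ | ∀ s ∈ F, rhoP ρ 2 (fun j => φ (σ s j)) (fun j => s • φ j) ≤ δ}

/-- The finite set `A` is `ε`-separated for `θ`. -/
def IsSep {Y : Type v} (θ : Y → Y → ℝ) (ε : ℝ) (A : Finset Y) : Prop :=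
  ∀ a ∈ A, ∀ b ∈ A, a ≠ b → ε ≤ θ a b

/-- `N_ε(S, θ)`: the largest cardinality of an `ε`-separated subset of `S` for `θ`. -/
noncomputable def Nsep {Y : Type v} (S : Set Y) (θ : Y → Y → ℝ) (ε : ℝ) : ℝ≥0∞ :=
  ⨆ (A : Finset Y) (_ : (A : Set Y) ⊆ S ∧ IsSep θ ε A), (A.card : ℝ≥0∞)

/-- `mdim_{Σ,p}(ρ)`. -/
noncomputable def mdim {Γ : Type u} [Group Γ] (S : SoficApprox Γ) {X : Type v} [MulAction Γ X]
    (p : ℝ≥0∞) (ρ : X → X → ℝ) : EReal :=
  liminf (fun ε : ℝ => ⨅ (F : Finset Γ) (δ : ℝ) (_ : 0 < δ),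
    limsup (fun i => ENNReal.log (Nsep (MapSet ρ F δ (S.σ i)) (rhoP ρ p) ε) /
      (((S.d i : ℝ) * Real.log (1 / ε) : ℝ) : EReal)) atTop) (𝓝[>] 0)

/-- `mdim_{Σ,M,p}(X, Γ)`: the infimum of `mdim_{Σ,p}(ρ)` over all dynamically generating
continuous pseudometrics `ρ`; for `p = ∞` this is the sofic metric mean dimension. -/
noncomputable def mdimM {Γ : Type u} [Group Γ] (S : SoficApprox Γ) (X : Type v)
    [TopologicalSpace X] [MulAction Γ X] (p : ℝ≥0∞) : EReal :=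
  ⨅ (ρ : X → X → ℝ) (_ : IsDynGen Γ ρ), mdim S p ρ

/-! ### elementary facts -/

section basics

variable {X : Type v} {ρ : X → X → ℝ}

lemma IsDynGen.nonneg {Γ : Type u} [Group Γ] [TopologicalSpace X] [MulAction Γ X]
    (h : IsDynGen Γ ρ) (x y : X) : 0 ≤ ρ x y := by
  have h1 := h.triangle x y x
  rw [h.self, h.symm y x] at h1
  linarith

lemma rhoP_top {d : ℕ} (φ ψ : Fin d → X) : rhoP ρ ∞ φ ψ = ⨆ j, ρ (φ j) (ψ j) := by
  simp [rhoP]

lemma rhoP_of_ne {p : ℝ≥0∞} (hp : p ≠ ∞) {d : ℕ} (φ ψ : Fin d → X) :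
    rhoP ρ p φ ψ = ((1 / (d : ℝ)) * ∑ j, ρ (φ j) (ψ j) ^ p.toReal) ^ (1 / p.toReal) := by
  simp [rhoP, hp]

lemma rho_le_rhoP_top {d : ℕ} (φ ψ : Fin d → X) (j : Fin d) :
    ρ (φ j) (ψ j) ≤ rhoP ρ ∞ φ ψ := by
  rw [rhoP_top]
  exact le_ciSup (f := fun j => ρ (φ j) (ψ j)) (Set.finite_range _).bddAbove j

lemma rhoP_le_top (h0 : ∀ x y, 0 ≤ ρ x y) {p : ℝ≥0∞} (hp1 : 1 ≤ p) {d : ℕ} (φ ψ : Fin d → X) :
    rhoP ρ p φ ψ ≤ rhoP ρ ∞ φ ψ := by
  by_cases hp : p = ∞
  · rw [hp]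
  rw [rhoP_of_ne hp]
  have hpr : 1 ≤ p.toReal := by
    rw [← ENNReal.toReal_one]
    exact ENNReal.toReal_mono hp hp1
  have hp0 : 0 < p.toReal := by linarith
  rcases Nat.eq_zero_or_pos d with hd | hd
  · subst hd
    simp [rhoP_top, hp0.ne']
  have hM0 : 0 ≤ rhoP ρ ∞ φ ψ := (h0 _ _).trans (rho_le_rhoP_top φ ψ ⟨0, hd⟩)
  have hdR : (0 : ℝ) < d := by exact_mod_cast hd
  have h1 : (1 / (d : ℝ)) * ∑ j, ρ (φ j) (ψ j) ^ p.toReal ≤ (rhoP ρ ∞ φ ψ) ^ p.toReal := by
    have h2 : ∑ j, ρ (φ j) (ψ j) ^ p.toReal ≤ ∑ _j : Fin d, (rhoP ρ ∞ φ ψ) ^ p.toReal := by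
      refine Finset.sum_le_sum fun j _ => ?_
      exact Real.rpow_le_rpow (h0 _ _) (rho_le_rhoP_top φ ψ j) hp0.le
    rw [Finset.sum_const, Finset.card_univ, Fintype.card_fin, nsmul_eq_mul] at h2
    rw [one_div, inv_mul_le_iff₀ hdR]
    exact h2
  have h3 : 0 ≤ (1 / (d : ℝ)) * ∑ j, ρ (φ j) (ψ j) ^ p.toReal := by
    refine mul_nonneg (by positivity) (Finset.sum_nonneg fun j _ => Real.rpow_nonneg (h0 _ _) _)
  calc ((1 / (d : ℝ)) * ∑ j, ρ (φ j) (ψ j) ^ p.toReal) ^ (1 / p.toReal)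
      ≤ ((rhoP ρ ∞ φ ψ) ^ p.toReal) ^ (1 / p.toReal) :=
        Real.rpow_le_rpow h3 h1 (by positivity)
    _ = rhoP ρ ∞ φ ψ := by
        rw [← Real.rpow_mul hM0, mul_one_div_cancel hp0.ne', Real.rpow_one]

lemma Nsep_mono {Y : Type v} {S T : Set Y} {θ θ' : Y → Y → ℝ} {ε ε' : ℝ}
    (h : ∀ A : Finset Y, (A : Set Y) ⊆ S ∧ IsSep θ ε A → (A : Set Y) ⊆ T ∧ IsSep θ' ε' A) :
    Nsep S θ ε ≤ Nsep T θ' ε' := by
  unfold Nsep
  refine iSup_le fun A => iSup_le fun hA => ?_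
  exact le_iSup_of_le A (le_iSup_of_le (h A hA) le_rfl)

lemma log_pos_of {ε : ℝ} (h0 : 0 < ε) (h1 : ε < 1) : 0 < Real.log (1 / ε) := by
  apply Real.log_pos
  rw [lt_div_iff₀ h0]
  linarith

lemma mdim_le_top {Γ : Type u} [Group Γ] [TopologicalSpace X] [MulAction Γ X]
    (S : SoficApprox Γ) (h : IsDynGen Γ ρ) {p : ℝ≥0∞} (hp1 : 1 ≤ p) :
    mdim S p ρ ≤ mdim S ∞ ρ := by
  unfold mdim
  refine liminf_le_liminf ?_
  have hev : ∀ᶠ ε : ℝ in 𝓝[>] 0, ε ∈ Set.Ioo (0 : ℝ) 1 :=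
    Ioo_mem_nhdsGT (by norm_num)
  filter_upwards [hev] with ε hε
  refine iInf_mono fun F => iInf_mono fun δ => iInf_mono fun hδ => ?_
  refine limsup_le_limsup (Eventually.of_forall fun i => ?_)
  have hlog := log_pos_of hε.1 hε.2
  refine EReal.div_le_div_right_of_nonneg ?_ ?_
  · exact_mod_cast mul_nonneg (Nat.cast_nonneg _) hlog.le
  · refine ENNReal.log_monotone (Nsep_mono fun A hA => ⟨hA.1, fun a ha b hb hab => ?_⟩)
    exact (hA.2 a ha b hb hab).trans (rhoP_le_top h.nonneg hp1 a b)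

end basics

/-! ### counting -/

section counting

open Finset

/-- the number of `Option (Fin M)`-valued functions on `Fin d` with a small support -/
lemma count_supp (d M : ℕ) (hM : 0 < M) (κ : ℝ) (hκ0 : 0 < κ) (hκ1 : κ ≤ 1) :
    (((Finset.univ : Finset (Fin d → Option (Fin M))).filter
      (fun g => ((Finset.univ.filter fun j => g j ≠ none).card : ℝ) ≤ κ * d)).card : ℝ)
      ≤ Real.exp (κ * d * (1 + Real.log (M / κ))) := by
  have hMR : (0 : ℝ) < M := by exact_mod_cast hM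
  have hM1 : (1 : ℝ) ≤ M := by exact_mod_cast hM
  set x : ℝ := κ / M with hx
  have hx0 : 0 < x := by positivity
  have hx1 : x ≤ 1 := by
    rw [hx, div_le_one hMR]; linarith
  set w : Option (Fin M) → ℝ := fun o => if o = none then 1 else x with hw
  have hw0 : ∀ o, 0 ≤ w o := by
    intro o
    simp only [hw]
    split_ifs <;> linarith
  have hsum : ∑ o, w o = 1 + κ := by
    rw [Fintype.sum_option]
    simp only [hw, if_true, reduceCtorEq, if_false]
    rw [Finset.sum_const, Finset.card_univ, Fintype.card_fin, nsmul_eq_mul, hx]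
    field_simp
  have htot : ∑ g : Fin d → Option (Fin M), ∏ j, w (g j) = (1 + κ) ^ d := by
    rw [← hsum]
    have := Finset.prod_univ_sum (fun _ : Fin d => (Finset.univ : Finset (Option (Fin M))))
      (fun _ o => w o)
    rw [Fintype.piFinset_univ] at this
    rw [← this, Finset.prod_const, Finset.card_univ, Fintype.card_fin]
  have hprod : ∀ g : Fin d → Option (Fin M), ∏ j, w (g j)
      = x ^ (Finset.univ.filter fun j => g j ≠ none).card := by
    intro g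
    simp only [hw]
    rw [Finset.prod_ite]
    simp
  set T := ((Finset.univ : Finset (Fin d → Option (Fin M))).filter
      (fun g => ((Finset.univ.filter fun j => g j ≠ none).card : ℝ) ≤ κ * d)) with hT
  have h1 : (T.card : ℝ) * x ^ (κ * d) ≤ (1 + κ) ^ d := by
    rw [← htot]
    calc (T.card : ℝ) * x ^ (κ * d) = ∑ g ∈ T, x ^ (κ * d) := by
          rw [Finset.sum_const, nsmul_eq_mul]
      _ ≤ ∑ g ∈ T, ∏ j, w (g j) := by
          refine Finset.sum_le_sum fun g hg => ?_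
          rw [hprod g, ← Real.rpow_natCast]
          rw [hT, Finset.mem_filter] at hg
          exact Real.rpow_le_rpow_of_exponent_ge hx0 hx1 hg.2
      _ ≤ ∑ g : Fin d → Option (Fin M), ∏ j, w (g j) :=
          Finset.sum_le_sum_of_subset_of_nonneg (Finset.subset_univ _)
            (fun g _ _ => Finset.prod_nonneg fun j _ => hw0 _)
  have h2 : (1 + κ) ^ d ≤ Real.exp (κ * d) := by
    calc (1 + κ) ^ d ≤ (Real.exp κ) ^ d := by
          refine pow_le_pow_left₀ (by linarith) ?_ d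
          have := Real.add_one_le_exp κ
          linarith
      _ = Real.exp (κ * d) := by rw [← Real.exp_nat_mul, mul_comm]
  have h3 : x ^ (κ * d) = Real.exp (-(κ * d * Real.log (M / κ))) := by
    rw [Real.rpow_def_of_pos hx0]
    congr 1
    have : Real.log x = - Real.log (M / κ) := by
      rw [← Real.log_inv, inv_div]
    rw [this]; ring
  have h4 : (T.card : ℝ) ≤ Real.exp (κ * d) * Real.exp (κ * d * Real.log (M / κ)) := by
    have h5 : (T.card : ℝ) * Real.exp (-(κ * d * Real.log (M / κ))) ≤ Real.exp (κ * d) := by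
      rw [← h3]; exact h1.trans h2
    rw [Real.exp_neg] at h5
    rw [← div_eq_mul_inv, div_le_iff₀ (Real.exp_pos _)] at h5
    exact h5
  calc (T.card : ℝ) ≤ Real.exp (κ * d) * Real.exp (κ * d * Real.log (M / κ)) := h4
    _ = Real.exp (κ * d * (1 + Real.log (M / κ))) := by
        rw [← Real.exp_add]; congr 1; ring

lemma rhoP_self {X : Type v} {ρ : X → X → ℝ} (hs : ∀ x, ρ x x = 0)
    {p : ℝ≥0∞} (hp1 : 1 ≤ p) (hp : p ≠ ∞) {d : ℕ} (a : Fin d → X) : rhoP ρ p a a = 0 := by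
  have hpr : 1 ≤ p.toReal := by
    rw [← ENNReal.toReal_one]
    exact ENNReal.toReal_mono hp hp1
  have hp0 : p.toReal ≠ 0 := by linarith
  rw [rhoP_of_ne hp]
  simp [hs, hp0]

lemma rhoP_symm {X : Type v} {ρ : X → X → ℝ} (hsy : ∀ x y, ρ x y = ρ y x)
    {p : ℝ≥0∞} {d : ℕ} (a b : Fin d → X) : rhoP ρ p a b = rhoP ρ p b a := by
  unfold rhoP
  simp only [hsy]

/-- the main counting estimate -/
lemma Nsep_top_le {X : Type v} {ρ : X → X → ℝ} (hs : ∀ x, ρ x x = 0)
    (hsy : ∀ x y, ρ x y = ρ y x)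
    (htr : ∀ x y z, ρ x z ≤ ρ x y + ρ y z) (h0 : ∀ x y, 0 ≤ ρ x y)
    {p : ℝ≥0∞} (hp1 : 1 ≤ p) (hp : p ≠ ∞) {d : ℕ} (hd : 0 < d) {ε ε' κ : ℝ} (hε : 0 < ε)
    (hε' : 0 < ε') (hκ : κ = (3 * ε / ε') ^ p.toReal) (hκ1 : κ ≤ 1) {M : ℕ} (hM : 0 < M)
    (c : X → Fin M) (hc : ∀ x y, c x = c y → ρ x y < ε') (Y : Set (Fin d → X)) :
    Nsep Y (rhoP ρ ∞) ε' ≤
      Nsep Y (rhoP ρ p) ε * ENNReal.ofReal (Real.exp (κ * d * (1 + Real.log (M / κ)))) := by
  classical
  have hpr : 1 ≤ p.toReal := by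
    rw [← ENNReal.toReal_one]
    exact ENNReal.toReal_mono hp hp1
  have hp0 : 0 < p.toReal := by linarith
  have hdR : (0 : ℝ) < d := by exact_mod_cast hd
  have hκ0 : 0 < κ := by rw [hκ]; positivity
  conv_lhs => unfold Nsep
  refine iSup_le fun A => iSup_le fun hA => ?_
  obtain ⟨B, hB, hBmax⟩ := Finset.exists_max_image
    (A.powerset.filter (fun B => IsSep (rhoP ρ p) ε B)) Finset.card
    ⟨∅, by
      rw [Finset.mem_filter]
      exact ⟨Finset.empty_mem_powerset _, fun a ha => absurd ha (Finset.notMem_empty a)⟩⟩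
  rw [Finset.mem_filter, Finset.mem_powerset] at hB
  have hex : ∀ a : Fin d → X, ∃ b : Fin d → X, a ∈ A → b ∈ B ∧ rhoP ρ p a b < ε := by
    intro a
    by_cases haA : a ∈ A
    swap
    · exact ⟨a, fun h => absurd h haA⟩
    by_contra hcon
    push Not at hcon
    have hcon' : ∀ b ∈ B, ε ≤ rhoP ρ p a b := fun b hb => (hcon b).2 hb
    have haB : a ∉ B := by
      intro h
      have := hcon' a h
      rw [rhoP_self hs hp1 hp] at this
      linarith
    have hins : insert a B ∈ A.powerset.filter (fun B => IsSep (rhoP ρ p) ε B) := by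
      rw [Finset.mem_filter, Finset.mem_powerset]
      refine ⟨Finset.insert_subset haA hB.1, ?_⟩
      intro x hx y hy hxy
      rw [Finset.mem_insert] at hx hy
      rcases hx with rfl | hx
      · rcases hy with rfl | hy
        · exact absurd rfl hxy
        · exact hcon' y hy
      · rcases hy with rfl | hy
        · rw [rhoP_symm hsy]; exact hcon' x hx
        · exact hB.2 x hx y hy hxy
    have := hBmax _ hins
    rw [Finset.card_insert_of_notMem haB] at this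
    omega
  choose bf hbf using hex
  set g : (Fin d → X) → (Fin d → Option (Fin M)) := fun a j =>
    if ρ (a j) (bf a j) < ε' / 3 then none else some (c (a j)) with hg
  set T := ((Finset.univ : Finset (Fin d → Option (Fin M))).filter
      (fun g => ((Finset.univ.filter fun j => g j ≠ none).card : ℝ) ≤ κ * d)) with hT
  have hgT : ∀ a ∈ A, g a ∈ T := by
    intro a ha
    rw [hT, Finset.mem_filter]
    refine ⟨Finset.mem_univ _, ?_⟩
    set J := (Finset.univ.filter fun j => g a j ≠ none) with hJ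
    have hJm : ∀ j ∈ J, ε' / 3 ≤ ρ (a j) (bf a j) := by
      intro j hj
      rw [hJ, Finset.mem_filter] at hj
      by_contra hlt
      push Not at hlt
      exact hj.2 (by simp only [hg]; rw [if_pos hlt])
    have h1 : (J.card : ℝ) * (ε' / 3) ^ p.toReal ≤ ∑ j, ρ (a j) (bf a j) ^ p.toReal := by
      calc (J.card : ℝ) * (ε' / 3) ^ p.toReal = ∑ j ∈ J, (ε' / 3) ^ p.toReal := by
            rw [Finset.sum_const, nsmul_eq_mul]
        _ ≤ ∑ j ∈ J, ρ (a j) (bf a j) ^ p.toReal :=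
            Finset.sum_le_sum fun j hj => Real.rpow_le_rpow (by positivity) (hJm j hj) hp0.le
        _ ≤ ∑ j, ρ (a j) (bf a j) ^ p.toReal :=
            Finset.sum_le_sum_of_subset_of_nonneg (Finset.subset_univ _)
              (fun j _ _ => Real.rpow_nonneg (h0 _ _) _)
    have h2 : rhoP ρ p a (bf a) < ε := (hbf a ha).2
    rw [rhoP_of_ne hp] at h2
    have h3 : 0 ≤ (1 / (d : ℝ)) * ∑ j, ρ (a j) (bf a j) ^ p.toReal :=
      mul_nonneg (by positivity) (Finset.sum_nonneg fun j _ => Real.rpow_nonneg (h0 _ _) _)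
    have h4 : (1 / (d : ℝ)) * ∑ j, ρ (a j) (bf a j) ^ p.toReal ≤ ε ^ p.toReal := by
      have h5 := Real.rpow_le_rpow (Real.rpow_nonneg h3 _) h2.le hp0.le
      rwa [← Real.rpow_mul h3, one_div_mul_cancel hp0.ne', Real.rpow_one] at h5
    rw [one_div, inv_mul_le_iff₀ hdR] at h4
    have h6 : (J.card : ℝ) * (ε' / 3) ^ p.toReal ≤ d * ε ^ p.toReal := h1.trans h4
    have h7 : (0 : ℝ) < (ε' / 3) ^ p.toReal := by positivity
    have h8 : κ = ε ^ p.toReal / (ε' / 3) ^ p.toReal := by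
      rw [hκ, ← Real.div_rpow hε.le (by positivity)]
      congr 1
      field_simp
    rw [h8]
    have h9 : ε ^ p.toReal / (ε' / 3) ^ p.toReal * (d : ℝ)
        = (d * ε ^ p.toReal) / (ε' / 3) ^ p.toReal := by ring
    rw [h9, le_div_iff₀ h7]
    exact h6
  have hinj : Set.InjOn (fun a => (bf a, g a)) (A : Set (Fin d → X)) := by
    intro a ha a' ha' hEq
    simp only [Prod.mk.injEq] at hEq
    by_contra hne
    have hsep := hA.2 a ha a' ha' hne
    have hlt : ∀ j, ρ (a j) (a' j) < ε' := by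
      intro j
      have hj := congrFun hEq.2 j
      simp only [hg] at hj
      by_cases h1 : ρ (a j) (bf a j) < ε' / 3
      · rw [if_pos h1] at hj
        have h2 : ρ (a' j) (bf a' j) < ε' / 3 := by
          by_contra h3
          rw [if_neg h3] at hj
          exact absurd hj (by simp)
        have h4 := htr (a j) (bf a j) (a' j)
        rw [hEq.1] at h4 h1
        rw [hsy (bf a' j) (a' j)] at h4
        linarith
      · rw [if_neg h1] at hj
        by_cases h2 : ρ (a' j) (bf a' j) < ε' / 3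
        · rw [if_pos h2] at hj
          exact absurd hj (by simp)
        · rw [if_neg h2] at hj
          exact hc _ _ (Option.some_injective _ hj)
    rw [rhoP_top] at hsep
    have hne' : Nonempty (Fin d) := ⟨⟨0, hd⟩⟩
    obtain ⟨j, hj⟩ := exists_eq_ciSup_of_finite (f := fun j => ρ (a j) (a' j))
    rw [← hj] at hsep
    exact absurd (hlt j) (not_lt.2 hsep)
  have hcard : A.card ≤ B.card * T.card := by
    rw [← Finset.card_product]
    refine Finset.card_le_card_of_injOn (fun a => (bf a, g a)) ?_ hinj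
    intro a ha
    simp only [Finset.coe_product, Set.mem_prod, Finset.mem_coe]
    exact ⟨(hbf a ha).1, hgT a ha⟩
  have hT' := count_supp d M hM κ hκ0 hκ1
  rw [← hT] at hT'
  have hBN : (B.card : ℝ≥0∞) ≤ Nsep Y (rhoP ρ p) ε := by
    unfold Nsep
    refine le_iSup_of_le B (le_iSup_of_le ⟨?_, hB.2⟩ le_rfl)
    exact (Finset.coe_subset.2 hB.1).trans hA.1
  have hTE : (T.card : ℝ≥0∞) ≤ ENNReal.ofReal (Real.exp (κ * d * (1 + Real.log (M / κ)))) := by
    rw [← ENNReal.ofReal_natCast]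
    exact ENNReal.ofReal_le_ofReal hT'
  calc (A.card : ℝ≥0∞) ≤ ((B.card * T.card : ℕ) : ℝ≥0∞) := by exact_mod_cast hcard
    _ = (B.card : ℝ≥0∞) * (T.card : ℝ≥0∞) := by push_cast; rfl
    _ ≤ _ := mul_le_mul' hBN hTE

end counting

/-! ### the comparison of exponents for pseudometrics with tame growth -/

section compare

/-- tame growth of covering numbers -/
def Tame {X : Type v} (ρ : X → X → ℝ) : Prop :=
  ∀ η : ℝ, 0 < η → ∀ᶠ ε : ℝ in 𝓝[>] 0, ∃ M : ℕ, 0 < M ∧ Real.log M ≤ ε ^ (-η) ∧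
    ∃ c : X → Fin M, ∀ x y, c x = c y → ρ x y < ε

lemma tendsto_rpow_zero {r : ℝ} (hr : 0 < r) :
    Tendsto (fun ε : ℝ => ε ^ r) (𝓝[>] 0) (𝓝 0) := by
  have h := (Real.continuousAt_rpow_const 0 r (Or.inr hr.le)).tendsto
  rw [Real.zero_rpow hr.ne'] at h
  exact h.mono_left nhdsWithin_le_nhds

lemma tendsto_rpow_zero' {r : ℝ} (hr : 0 < r) :
    Tendsto (fun ε : ℝ => ε ^ r) (𝓝[>] 0) (𝓝[>] 0) := by
  refine tendsto_nhdsWithin_iff.2 ⟨tendsto_rpow_zero hr, ?_⟩
  filter_upwards [self_mem_nhdsWithin] with ε hε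
  exact Real.rpow_pos_of_pos hε _

lemma error_small {q θ : ℝ} (hq : 0 < q) (hθ0 : 0 < θ) :
    ∀ᶠ ε : ℝ in 𝓝[>] 0, (3 : ℝ) ^ q * ε ^ (q * θ) ≤ 1 ∧
      (3 : ℝ) ^ q * ε ^ (q * θ) + (3 : ℝ) ^ q * ε ^ (q * θ / 2)
        + Real.negMulLog ((3 : ℝ) ^ q * ε ^ (q * θ)) ≤ θ := by
  have t1 : Tendsto (fun ε : ℝ => (3 : ℝ) ^ q * ε ^ (q * θ)) (𝓝[>] 0) (𝓝 0) := by
    have := (tendsto_rpow_zero (mul_pos hq hθ0)).const_mul ((3 : ℝ) ^ q)
    rwa [mul_zero] at this
  have t2 : Tendsto (fun ε : ℝ => (3 : ℝ) ^ q * ε ^ (q * θ / 2)) (𝓝[>] 0) (𝓝 0) := by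
    have := (tendsto_rpow_zero (r := q * θ / 2) (by positivity)).const_mul ((3 : ℝ) ^ q)
    rwa [mul_zero] at this
  have t3 : Tendsto (fun ε : ℝ => Real.negMulLog ((3 : ℝ) ^ q * ε ^ (q * θ))) (𝓝[>] 0) (𝓝 0) := by
    have := (Real.continuous_negMulLog.tendsto 0).comp t1
    rwa [Real.negMulLog_zero] at this
  have t4 := (t1.add t2).add t3
  simp only [add_zero] at t4
  filter_upwards [t1.eventually_le_const (show (0 : ℝ) < 1 by norm_num),
    t4.eventually_le_const hθ0] with ε h1 h2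
  exact ⟨h1, h2⟩

lemma mdim_top_le {Γ : Type u} [Group Γ] (S : SoficApprox Γ) {X : Type v} [MulAction Γ X]
    {ρ : X → X → ℝ} (hs : ∀ x, ρ x x = 0) (hsy : ∀ x y, ρ x y = ρ y x)
    (htr : ∀ x y z, ρ x z ≤ ρ x y + ρ y z) (h0 : ∀ x y, 0 ≤ ρ x y) (htame : Tame ρ)
    {p : ℝ≥0∞} (hp1 : 1 ≤ p) (hp : p ≠ ∞) : mdim S ∞ ρ ≤ mdim S p ρ := by
  have hpr : 1 ≤ p.toReal := by
    rw [← ENNReal.toReal_one]
    exact ENNReal.toReal_mono hp hp1
  set q := p.toReal with hq
  have hq0 : 0 < q := by linarith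
  refine EReal.le_of_forall_lt_iff_le.1 fun b hb => ?_
  -- it suffices to bound by `b / (1 - θ) + θ`
  have key : ∀ θ : ℝ, 0 < θ → θ < 1 → mdim S ∞ ρ ≤ ((b / (1 - θ) + θ : ℝ) : EReal) := by
    intro θ hθ0 hθ1
    have h1θ : 0 < 1 - θ := by linarith
    have hfreq := frequently_lt_of_liminf_lt (by isBoundedDefault) hb
    have hlogbig : ∀ᶠ ε : ℝ in 𝓝[>] 0, 1 / (1 - θ) ≤ Real.log (1 / ε) := by
      have : Tendsto (fun ε : ℝ => Real.log (1 / ε)) (𝓝[>] 0) atTop := by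
        have h := Real.tendsto_log_nhdsGT_zero
        have h2 := tendsto_neg_atBot_atTop.comp h
        refine h2.congr fun ε => ?_
        simp [Function.comp]
      exact this.eventually_ge_atTop _
    have htame' := (tendsto_rpow_zero' h1θ).eventually (htame (q * θ / 2) (by positivity))
    have hev1 : ∀ᶠ ε : ℝ in 𝓝[>] 0, ε ∈ Set.Ioo (0 : ℝ) 1 := Ioo_mem_nhdsGT (by norm_num)
    unfold mdim
    refine liminf_le_of_frequently_le' ?_
    refine (tendsto_rpow_zero' h1θ).frequently ?_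
    refine (hfreq.and_eventually (((error_small hq0 hθ0).and hlogbig).and
      (htame'.and hev1))).mono ?_
    rintro ε ⟨hlt, ⟨⟨hκ1, herr⟩, hL⟩, ⟨M, hM, hMlog, c, hc⟩, hε0, hε1⟩
    obtain ⟨F, hF⟩ := iInf_lt_iff.1 hlt
    obtain ⟨δ, hF⟩ := iInf_lt_iff.1 hF
    obtain ⟨hδ, hF⟩ := iInf_lt_iff.1 hF
    refine iInf_le_of_le F (iInf_le_of_le δ (iInf_le_of_le hδ ?_))
    have hev := eventually_lt_of_limsup_lt hF (by isBoundedDefault)
    refine limsup_le_of_le (by isBoundedDefault) ?_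
    filter_upwards [hev, S.tendsto_d.eventually_ge_atTop 1] with i hi hdi
    set d := S.d i with hd
    have hd0 : 0 < d := hdi
    have hdR : (0 : ℝ) < d := by exact_mod_cast hd0
    set L := Real.log (1 / ε) with hLdef
    have hL0 : 0 < L := lt_of_lt_of_le (by positivity) hL
    set ε' := ε ^ (1 - θ) with hε'
    have hε'0 : 0 < ε' := Real.rpow_pos_of_pos hε0 _
    have hL' : Real.log (1 / ε') = (1 - θ) * L := by
      rw [hε', hLdef, one_div, one_div, Real.log_inv, Real.log_inv, Real.log_rpow hε0]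
      ring
    set κ := (3 : ℝ) ^ q * ε ^ (q * θ) with hκdef
    have hκ0 : 0 < κ := by positivity
    have hκ : κ = (3 * ε / ε') ^ q := by
      have h1 : 3 * ε / ε' = 3 * ε ^ θ := by
        have : ε / ε' = ε ^ θ := by
          rw [hε', div_eq_iff (by positivity), ← Real.rpow_add hε0]
          simp
        rw [mul_div_assoc, this]
      rw [h1, Real.mul_rpow (by norm_num) (by positivity), ← Real.rpow_mul hε0.le, mul_comm θ q]
    have hN := Nsep_top_le hs hsy htr h0 hp1 hp hd0 hε0 hε'0 hκ hκ1 hM c hc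
      (MapSet ρ F δ (S.σ i))
    have hlogN := ENNReal.log_monotone hN
    rw [ENNReal.log_mul_add, ENNReal.log_ofReal_of_pos (Real.exp_pos _), Real.log_exp] at hlogN
    have hdLpos : (0 : EReal) < (((d : ℝ) * L : ℝ) : EReal) := by
      exact_mod_cast mul_pos hdR hL0
    have hNp : ENNReal.log (Nsep (MapSet ρ F δ (S.σ i)) (rhoP ρ p) ε)
        ≤ (((d : ℝ) * L * b : ℝ) : EReal) := by
      have := (EReal.div_le_iff_le_mul hdLpos (EReal.coe_ne_top _)).1 hi.le
      rwa [← EReal.coe_mul] at this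
    have hdL'pos : (0 : EReal) < (((d : ℝ) * Real.log (1 / ε') : ℝ) : EReal) := by
      rw [hL']
      exact_mod_cast mul_pos hdR (mul_pos h1θ hL0)
    rw [EReal.div_le_iff_le_mul hdL'pos (EReal.coe_ne_top _), ← EReal.coe_mul]
    refine hlogN.trans ((add_le_add hNp le_rfl).trans ?_)
    rw [← EReal.coe_add, EReal.coe_le_coe_iff, hL']
    -- real arithmetic
    have hMR : (0 : ℝ) < M := by exact_mod_cast hM
    have hlogdiv : Real.log (M / κ) = Real.log M - Real.log κ := Real.log_div hMR.ne' hκ0.ne'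
    have hκM : κ * Real.log M ≤ (3 : ℝ) ^ q * ε ^ (q * θ / 2) := by
      have h1 : Real.log M ≤ ε ^ (-(q * θ / 2)) := by
        refine hMlog.trans ?_
        rw [hε', ← Real.rpow_mul hε0.le]
        refine Real.rpow_le_rpow_of_exponent_ge hε0 hε1.le ?_
        nlinarith [mul_pos hq0 hθ0, mul_pos (mul_pos hq0 hθ0) hθ0]
      calc κ * Real.log M ≤ κ * ε ^ (-(q * θ / 2)) := mul_le_mul_of_nonneg_left h1 hκ0.le
        _ = (3 : ℝ) ^ q * ε ^ (q * θ / 2) := by
            rw [hκdef, mul_assoc, ← Real.rpow_add hε0]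
            congr 2
            ring
    have hneg : Real.negMulLog κ = - (κ * Real.log κ) := by
      unfold Real.negMulLog; ring
    have htot : κ * (1 + Real.log (M / κ)) ≤ θ := by
      rw [hlogdiv]
      rw [hneg] at herr
      nlinarith
    have h1L : 1 ≤ (1 - θ) * L := by
      rw [div_le_iff₀ h1θ] at hL
      linarith
    have hfin : (d : ℝ) * ((1 - θ) * L) * (b / (1 - θ) + θ)
        = (d : ℝ) * L * b + (d : ℝ) * (((1 - θ) * L) * θ) := by
      field_simp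
    rw [hfin]
    have h2 : κ * d * (1 + Real.log (M / κ)) ≤ (d : ℝ) * (((1 - θ) * L) * θ) := by
      calc κ * d * (1 + Real.log (M / κ)) = d * (κ * (1 + Real.log (M / κ))) := by ring
        _ ≤ d * θ := mul_le_mul_of_nonneg_left htot hdR.le
        _ ≤ (d : ℝ) * (((1 - θ) * L) * θ) := by
            refine mul_le_mul_of_nonneg_left ?_ hdR.le
            nlinarith
    linarith
  have hlim : Tendsto (fun θ : ℝ => ((b / (1 - θ) + θ : ℝ) : EReal)) (𝓝[>] 0)
      (𝓝 ((b : ℝ) : EReal)) := by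
    refine (continuous_coe_real_ereal.tendsto b).comp ?_
    have h : ContinuousAt (fun θ : ℝ => b / (1 - θ) + θ) 0 := by
      refine ContinuousAt.add (ContinuousAt.div continuousAt_const ?_ (by norm_num))
        continuousAt_id
      exact continuousAt_const.sub continuousAt_id
    have h2 := h.tendsto
    simp only [sub_zero, div_one, add_zero] at h2
    exact h2.mono_left nhdsWithin_le_nhds
  refine ge_of_tendsto hlim ?_
  have hev1 : ∀ᶠ θ : ℝ in 𝓝[>] 0, θ ∈ Set.Ioo (0 : ℝ) 1 := Ioo_mem_nhdsGT (by norm_num)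
  filter_upwards [hev1] with θ hθ
  exact key θ hθ.1 hθ.2

end compare

/-! ### a pseudometric with tame growth -/

section tame

lemma rhoP_two {X : Type v} {ρ : X → X → ℝ} {d : ℕ} (a b : Fin d → X) :
    rhoP ρ 2 a b = Real.sqrt ((1 / (d : ℝ)) * ∑ j, ρ (a j) (b j) ^ 2) := by
  rw [rhoP_of_ne (by norm_num), Real.sqrt_eq_rpow]
  simp

lemma rhoP_mono {X : Type v} {ρ ρ' : X → X → ℝ} (h0 : ∀ x y, 0 ≤ ρ' x y)
    (hle : ∀ x y, ρ' x y ≤ ρ x y) {p : ℝ≥0∞} {d : ℕ} (hd : 0 < d) (a b : Fin d → X) :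
    rhoP ρ' p a b ≤ rhoP ρ p a b := by
  by_cases hp : p = ∞
  · rw [hp, rhoP_top, rhoP_top]
    have : Nonempty (Fin d) := ⟨⟨0, hd⟩⟩
    exact ciSup_mono (Set.finite_range _).bddAbove fun j => hle _ _
  · rw [rhoP_of_ne hp, rhoP_of_ne hp]
    refine Real.rpow_le_rpow ?_ ?_ (by positivity)
    · exact mul_nonneg (by positivity) (Finset.sum_nonneg fun j _ => Real.rpow_nonneg (h0 _ _) _)
    · refine mul_le_mul_of_nonneg_left ?_ (by positivity)
      exact Finset.sum_le_sum fun j _ => Real.rpow_le_rpow (h0 _ _) (hle _ _) (by positivity)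

/-- passing to a smaller pseudometric with the same uniform structure does not increase
`mdim_{Σ,p}` -/
lemma mdim_mono {Γ : Type u} [Group Γ] (S : SoficApprox Γ) {X : Type v} [MulAction Γ X]
    {ρ ρ' : X → X → ℝ} (h0 : ∀ x y, 0 ≤ ρ' x y) (h0' : ∀ x y, 0 ≤ ρ x y)
    (hle : ∀ x y, ρ' x y ≤ ρ x y) {D : ℝ} (hD0 : 0 < D) (hD : ∀ x y, ρ x y ≤ D)
    (hunif : ∀ η : ℝ, 0 < η → ∃ τ : ℝ, 0 < τ ∧ ∀ x y, ρ' x y < τ → ρ x y < η) (p : ℝ≥0∞) :
    mdim S p ρ' ≤ mdim S p ρ := by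
  unfold mdim
  refine liminf_le_liminf ?_
  have hev1 : ∀ᶠ ε : ℝ in 𝓝[>] 0, ε ∈ Set.Ioo (0 : ℝ) 1 := Ioo_mem_nhdsGT (by norm_num)
  filter_upwards [hev1] with ε hε
  refine le_iInf fun F => le_iInf fun δ => le_iInf fun hδ => ?_
  obtain ⟨τ, hτ, hτ'⟩ := hunif (δ / 2) (by positivity)
  refine iInf_le_of_le F (iInf_le_of_le (δ * τ / (2 * D)) (iInf_le_of_le (by positivity) ?_))
  refine limsup_le_limsup ?_
  filter_upwards [S.tendsto_d.eventually_ge_atTop 1] with i hi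
  have hdR : (0 : ℝ) < S.d i := by exact_mod_cast hi
  have hlog := log_pos_of hε.1 hε.2
  refine EReal.div_le_div_right_of_nonneg ?_ ?_
  · exact_mod_cast mul_nonneg hdR.le hlog.le
  refine ENNReal.log_monotone (Nsep_mono fun A hA => ⟨hA.1.trans ?_, fun a ha b hb hab => ?_⟩)
  swap
  · exact (hA.2 a ha b hb hab).trans (rhoP_mono h0 hle hi a b)
  intro φ hφ s hs
  have h1 := hφ s hs
  rw [rhoP_two] at h1 ⊢
  rw [Real.sqrt_le_left (by positivity)] at h1
  rw [Real.sqrt_le_left hδ.le]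
  have hpt : ∀ x y, ρ x y ^ 2 ≤ δ ^ 2 / 4 + D ^ 2 / τ ^ 2 * ρ' x y ^ 2 := by
    intro x y
    rcases lt_or_ge (ρ' x y) τ with h | h
    · have h2 := hτ' x y h
      have h3 : ρ x y ^ 2 ≤ (δ / 2) ^ 2 := pow_le_pow_left₀ (h0' x y) h2.le 2
      have h4 : 0 ≤ D ^ 2 / τ ^ 2 * ρ' x y ^ 2 := by positivity
      nlinarith
    · have h3 : ρ x y ^ 2 ≤ D ^ 2 := pow_le_pow_left₀ (h0' x y) (hD x y) 2
      have h4 : D ^ 2 ≤ D ^ 2 / τ ^ 2 * ρ' x y ^ 2 := by
        rw [div_mul_eq_mul_div, le_div_iff₀ (by positivity)]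
        exact mul_le_mul_of_nonneg_left (pow_le_pow_left₀ hτ.le h 2) (by positivity)
      nlinarith [sq_nonneg δ]
  calc (1 / (S.d i : ℝ)) * ∑ j, ρ (φ (S.σ i s j)) (s • φ j) ^ 2
      ≤ (1 / (S.d i : ℝ)) * ∑ j, (δ ^ 2 / 4 + D ^ 2 / τ ^ 2 * ρ' (φ (S.σ i s j)) (s • φ j) ^ 2) :=
        mul_le_mul_of_nonneg_left (Finset.sum_le_sum fun j _ => hpt _ _) (by positivity)
    _ = δ ^ 2 / 4 + D ^ 2 / τ ^ 2 *
          ((1 / (S.d i : ℝ)) * ∑ j, ρ' (φ (S.σ i s j)) (s • φ j) ^ 2) := by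
        rw [Finset.sum_add_distrib, ← Finset.mul_sum, Finset.sum_const, Finset.card_univ,
          Fintype.card_fin, nsmul_eq_mul]
        field_simp
    _ ≤ δ ^ 2 / 4 + D ^ 2 / τ ^ 2 * (δ * τ / (2 * D)) ^ 2 := by
        have : 0 ≤ D ^ 2 / τ ^ 2 := by positivity
        nlinarith [mul_le_mul_of_nonneg_left h1 this]
    _ = δ ^ 2 / 2 := by field_simp; ring
    _ ≤ δ ^ 2 := by nlinarith [sq_nonneg δ]

/-- the new pseudometric -/
noncomputable def rho' {X : Type v} (ρ : X → X → ℝ) (z : ℕ → X) (x y : X) : ℝ :=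
  ∑' n, (1 / 2 : ℝ) ^ (n + 1) * |ρ x (z n) - ρ y (z n)|

variable {X : Type v} {ρ : X → X → ℝ} {z : ℕ → X} {D : ℝ}

lemma hasSum_half : HasSum (fun n : ℕ => (1 / 2 : ℝ) ^ (n + 1)) 1 := by
  have h := hasSum_geometric_two.mul_left (1 / 2 : ℝ)
  have h1 : (1 / 2 : ℝ) * 2 = 1 := by norm_num
  rw [h1] at h
  refine h.congr_fun ?_
  intro n
  rw [pow_succ]; ring

lemma term_le (h0 : ∀ x y, 0 ≤ ρ x y) (hD : ∀ x y, ρ x y ≤ D) (x y : X) (n : ℕ) :
    (1 / 2 : ℝ) ^ (n + 1) * |ρ x (z n) - ρ y (z n)| ≤ (1 / 2 : ℝ) ^ (n + 1) * D := by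
  refine mul_le_mul_of_nonneg_left ?_ (by positivity)
  rw [abs_le]
  constructor <;> linarith [h0 x (z n), h0 y (z n), hD x (z n), hD y (z n)]

lemma summable_bound : Summable (fun n : ℕ => (1 / 2 : ℝ) ^ (n + 1) * D) :=
  hasSum_half.summable.mul_right D

lemma summable_rho' (h0 : ∀ x y, 0 ≤ ρ x y) (hD : ∀ x y, ρ x y ≤ D) (x y : X) :
    Summable (fun n : ℕ => (1 / 2 : ℝ) ^ (n + 1) * |ρ x (z n) - ρ y (z n)|) :=
  Summable.of_nonneg_of_le (fun n => by positivity) (term_le h0 hD x y) summable_bound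

lemma rho'_nonneg (x y : X) : 0 ≤ rho' ρ z x y :=
  tsum_nonneg fun n => by positivity

lemma rho'_self (x : X) : rho' ρ z x x = 0 := by
  simp [rho']

lemma rho'_symm (x y : X) : rho' ρ z x y = rho' ρ z y x := by
  unfold rho'
  simp only [abs_sub_comm]

lemma rho'_triangle (h0 : ∀ x y, 0 ≤ ρ x y) (hD : ∀ x y, ρ x y ≤ D) (x y w : X) :
    rho' ρ z x w ≤ rho' ρ z x y + rho' ρ z y w := by
  unfold rho'
  rw [← (summable_rho' h0 hD x y).tsum_add (summable_rho' h0 hD y w)]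
  refine (summable_rho' h0 hD x w).tsum_le_tsum ?_
    ((summable_rho' h0 hD x y).add (summable_rho' h0 hD y w))
  intro n
  rw [← mul_add]
  exact mul_le_mul_of_nonneg_left (abs_sub_le _ _ _) (by positivity)

lemma rho'_le (h0 : ∀ x y, 0 ≤ ρ x y) (hD : ∀ x y, ρ x y ≤ D)
    (hsy : ∀ x y, ρ x y = ρ y x) (htr : ∀ x y z, ρ x z ≤ ρ x y + ρ y z) (x y : X) :
    rho' ρ z x y ≤ ρ x y := by
  have h1 : rho' ρ z x y ≤ ∑' n : ℕ, (1 / 2 : ℝ) ^ (n + 1) * ρ x y := by
    refine (summable_rho' h0 hD x y).tsum_le_tsum ?_ (hasSum_half.summable.mul_right _)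
    intro n
    refine mul_le_mul_of_nonneg_left ?_ (by positivity)
    rw [abs_le]
    constructor
    · have := htr y x (z n)
      rw [hsy y x] at this
      linarith
    · have := htr x y (z n)
      linarith
  rw [tsum_mul_right, hasSum_half.tsum_eq, one_mul] at h1
  exact h1

lemma rho'_cont [TopologicalSpace X] (h0 : ∀ x y, 0 ≤ ρ x y) (hD : ∀ x y, ρ x y ≤ D)
    (hc : Continuous fun q : X × X => ρ q.1 q.2) :
    Continuous fun q : X × X => rho' ρ z q.1 q.2 := by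
  unfold rho'
  refine continuous_tsum (u := fun n : ℕ => (1 / 2 : ℝ) ^ (n + 1) * D) ?_ summable_bound ?_
  · intro n
    have h1 : Continuous fun q : X × X => ρ q.1 (z n) :=
      hc.comp (continuous_fst.prodMk continuous_const)
    have h2 : Continuous fun q : X × X => ρ q.2 (z n) :=
      hc.comp (continuous_snd.prodMk continuous_const)
    exact continuous_const.mul (h1.sub h2).abs
  · intro n q
    rw [Real.norm_eq_abs, abs_of_nonneg (by positivity)]
    exact term_le h0 hD _ _ n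

lemma rho'_pos [TopologicalSpace X] (h0 : ∀ x y, 0 ≤ ρ x y) (hD : ∀ x y, ρ x y ≤ D)
    (hs : ∀ x, ρ x x = 0)
    (hc : Continuous fun q : X × X => ρ q.1 q.2) (hz : DenseRange z) {x y : X}
    (hxy : 0 < ρ x y) : 0 < rho' ρ z x y := by
  refine lt_of_le_of_ne (rho'_nonneg x y) fun heq => ?_
  have hall : ∀ n, ρ x (z n) = ρ y (z n) := by
    intro n
    have hs0 : HasSum (fun n : ℕ => (1 / 2 : ℝ) ^ (n + 1) * |ρ x (z n) - ρ y (z n)|) 0 := by
      have h5 := (summable_rho' (z := z) h0 hD x y).hasSum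
      have h6 : (∑' n : ℕ, (1 / 2 : ℝ) ^ (n + 1) * |ρ x (z n) - ρ y (z n)|) = 0 := heq.symm
      rwa [h6] at h5
    have h1 := (hasSum_zero_iff_of_nonneg (fun n => by positivity)).1 hs0
    have h2 := congrFun h1 n
    simp only [Pi.zero_apply, mul_eq_zero, abs_eq_zero] at h2
    rcases h2 with h2 | h2
    · exact absurd h2 (by positivity)
    · linarith
  have h3 : (fun w => ρ x w) = fun w => ρ y w := by
    refine DenseRange.equalizer hz ?_ ?_ (funext hall)
    · exact hc.comp (continuous_const.prodMk continuous_id)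
    · exact hc.comp (continuous_const.prodMk continuous_id)
  have h4 := congrFun h3 y
  simp only [hs y] at h4
  linarith

lemma rho'_unif [TopologicalSpace X] [CompactSpace X] (h0 : ∀ x y, 0 ≤ ρ x y)
    (hD : ∀ x y, ρ x y ≤ D) (hs : ∀ x, ρ x x = 0)
    (hc : Continuous fun q : X × X => ρ q.1 q.2) (hz : DenseRange z) (η : ℝ) (hη : 0 < η) :
    ∃ τ : ℝ, 0 < τ ∧ ∀ x y, rho' ρ z x y < τ → ρ x y < η := by
  have hK : IsCompact {q : X × X | η ≤ ρ q.1 q.2} :=
    (isClosed_le continuous_const hc).isCompact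
  rcases Set.eq_empty_or_nonempty {q : X × X | η ≤ ρ q.1 q.2} with he | hne
  · refine ⟨1, one_pos, fun x y _ => ?_⟩
    by_contra h
    push Not at h
    have : (x, y) ∈ {q : X × X | η ≤ ρ q.1 q.2} := h
    rw [he] at this
    exact this
  · obtain ⟨q, hq, hmin⟩ := hK.exists_isMinOn hne
      (rho'_cont (z := z) h0 hD hc).continuousOn
    refine ⟨rho' ρ z q.1 q.2, rho'_pos h0 hD hs hc hz (lt_of_lt_of_le hη hq), ?_⟩
    intro x y hxy
    by_contra h
    push Not at h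
    have h1 : (x, y) ∈ {q : X × X | η ≤ ρ q.1 q.2} := h
    have h2 : rho' ρ z q.1 q.2 ≤ rho' ρ z x y := hmin h1
    linarith

lemma rho'_lt (h0 : ∀ x y, 0 ≤ ρ x y) (hD : ∀ x y, ρ x y ≤ D) {ε : ℝ} {m : ℕ}
    (hε : 0 < ε)
    (hm : (1 / 2 : ℝ) ^ m * D < ε / 2) {x y : X}
    (hxy : ∀ n < m, |ρ x (z n) - ρ y (z n)| < ε / 2) : rho' ρ z x y < ε := by
  have hsum := summable_rho' (z := z) h0 hD x y
  have h1 : rho' ρ z x y = ∑ n ∈ Finset.range m, (1 / 2 : ℝ) ^ (n + 1) * |ρ x (z n) - ρ y (z n)|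
      + ∑' n, (1 / 2 : ℝ) ^ (n + m + 1) * |ρ x (z (n + m)) - ρ y (z (n + m))| := by
    unfold rho'
    rw [← hsum.sum_add_tsum_nat_add m]
  have h2 : ∑ n ∈ Finset.range m, (1 / 2 : ℝ) ^ (n + 1) * |ρ x (z n) - ρ y (z n)| ≤ ε / 2 := by
    calc ∑ n ∈ Finset.range m, (1 / 2 : ℝ) ^ (n + 1) * |ρ x (z n) - ρ y (z n)|
        ≤ ∑ n ∈ Finset.range m, (1 / 2 : ℝ) ^ (n + 1) * (ε / 2) := by
          refine Finset.sum_le_sum fun n hn => ?_
          exact mul_le_mul_of_nonneg_left (hxy n (Finset.mem_range.1 hn)).le (by positivity)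
      _ = (∑ n ∈ Finset.range m, (1 / 2 : ℝ) ^ (n + 1)) * (ε / 2) := by rw [Finset.sum_mul]
      _ ≤ 1 * (ε / 2) := by
          refine mul_le_mul_of_nonneg_right ?_ (by positivity)
          exact sum_le_hasSum _ (fun n _ => by positivity) hasSum_half
      _ = ε / 2 := one_mul _
  have h3 : ∑' n, (1 / 2 : ℝ) ^ (n + m + 1) * |ρ x (z (n + m)) - ρ y (z (n + m))|
      ≤ (1 / 2 : ℝ) ^ m * D := by
    have hs1 : Summable fun n => (1 / 2 : ℝ) ^ (n + m + 1) *
        |ρ x (z (n + m)) - ρ y (z (n + m))| := by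
      exact (summable_nat_add_iff m).2 hsum
    have hs2 : HasSum (fun n : ℕ => (1 / 2 : ℝ) ^ (n + 1) * ((1 / 2 : ℝ) ^ m * D))
        (1 * ((1 / 2 : ℝ) ^ m * D)) := hasSum_half.mul_right _
    rw [one_mul] at hs2
    rw [← hs2.tsum_eq]
    refine hs1.tsum_le_tsum ?_ hs2.summable
    intro n
    have h4 := term_le (z := z) h0 hD x y (n + m)
    calc (1 / 2 : ℝ) ^ (n + m + 1) * |ρ x (z (n + m)) - ρ y (z (n + m))|
        ≤ (1 / 2 : ℝ) ^ (n + m + 1) * D := h4
      _ = (1 / 2 : ℝ) ^ (n + 1) * ((1 / 2 : ℝ) ^ m * D) := by ring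
  linarith

lemma abs_sub_lt_of_floor {a b r : ℝ} (ha : 0 ≤ a) (hb : 0 ≤ b) (hr : 0 < r)
    (h : ⌊a / r⌋₊ = ⌊b / r⌋₊) : |a - b| < r := by
  have h1 := Nat.floor_le (div_nonneg ha hr.le)
  have h2 := Nat.lt_floor_add_one (a / r)
  have h3 := Nat.floor_le (div_nonneg hb hr.le)
  have h4 := Nat.lt_floor_add_one (b / r)
  rw [h] at h1 h2
  rw [le_div_iff₀ hr] at h1 h3
  rw [div_lt_iff₀ hr] at h2 h4
  rw [abs_lt]
  constructor <;> nlinarith

lemma rho'_tame (h0 : ∀ x y, 0 ≤ ρ x y) (hD : ∀ x y, ρ x y ≤ D) (hD1 : 0 < D) :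
    Tame (rho' ρ z) := by
  intro η hη
  have hη4 : -(η / 4) < 0 := by linarith
  have e1 : ∀ᶠ ε : ℝ in 𝓝[>] 0, ‖Real.log ε‖ ≤ (1 / 4 : ℝ) * ‖ε ^ (-(η / 4))‖ :=
    (isLittleO_log_rpow_nhdsGT_zero hη4).bound (by norm_num)
  have e2 : Tendsto (fun ε : ℝ => ε ^ (-(η / 4))) (𝓝[>] 0) atTop :=
    tendsto_rpow_neg_nhdsGT_zero (by linarith)
  have hev1 : ∀ᶠ ε : ℝ in 𝓝[>] 0, ε ∈ Set.Ioo (0 : ℝ) 1 := Ioo_mem_nhdsGT (by norm_num)
  filter_upwards [e1, e2.eventually_ge_atTop (4 * Real.log (2 * D + 1)),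
    e2.eventually_ge_atTop 2, hev1] with ε h1 h2 h3 hε
  obtain ⟨hε0, hε1⟩ := hε
  set t := ε ^ (-(η / 4)) with ht
  have ht0 : 0 < t := by positivity
  rw [Real.norm_eq_abs, Real.norm_eq_abs, abs_of_pos ht0] at h1
  set K := ⌊D / (ε / 2)⌋₊ + 1 with hK
  set m := ⌈t⌉₊ with hm
  have hlogε : -Real.log ε ≤ (1 / 4) * t := (neg_le_abs _).trans h1
  -- bound for the logarithm of `2D/ε + 1`
  have hlog : Real.log (D / (ε / 2) + 1) ≤ t / 2 := by
    have h4 : D / (ε / 2) + 1 ≤ (2 * D + 1) / ε := by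
      rw [le_div_iff₀ hε0]
      have : D / (ε / 2) * ε = 2 * D := by field_simp
      nlinarith
    calc Real.log (D / (ε / 2) + 1) ≤ Real.log ((2 * D + 1) / ε) :=
          Real.log_le_log (by positivity) h4
      _ = Real.log (2 * D + 1) - Real.log ε := Real.log_div (by positivity) hε0.ne'
      _ ≤ t / 2 := by linarith
  have hKpos : 0 < K := Nat.succ_pos _
  have hKle : (K : ℝ) ≤ D / (ε / 2) + 1 := by
    rw [hK]
    push_cast
    have := Nat.floor_le (a := D / (ε / 2)) (by positivity)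
    linarith
  have hlogK : Real.log K ≤ t / 2 :=
    (Real.log_le_log (by exact_mod_cast hKpos) hKle).trans hlog
  have hmle : (m : ℝ) ≤ t + 1 := by
    have := Nat.ceil_lt_add_one ht0.le
    linarith
  have hmge : t ≤ (m : ℝ) := Nat.le_ceil t
  have htail : (1 / 2 : ℝ) ^ m * D < ε / 2 := by
    have h5 : D / (ε / 2) < 2 ^ m := by
      have h6 : Real.log (D / (ε / 2) + 1) ≤ m * Real.log 2 := by
        have h7 : (1 / 2 : ℝ) ≤ Real.log 2 := by
          have := Real.log_two_gt_d9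
          linarith
        nlinarith
      have h8 : Real.log (D / (ε / 2) + 1) ≤ Real.log (2 ^ m) := by
        rw [Real.log_pow]; exact h6
      have h9 := (Real.log_le_log_iff (by positivity) (by positivity)).1 h8
      linarith
    rw [div_lt_iff₀ (by positivity)] at h5
    rw [one_div, inv_pow, inv_mul_lt_iff₀ (by positivity)]
    exact h5
  refine ⟨K ^ m, pow_pos hKpos m, ?_, ?_⟩
  · push_cast
    rw [Real.log_pow]
    have h10 : (m : ℝ) * Real.log K ≤ (t + 1) * (t / 2) := by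
      have hlogK0 : 0 ≤ Real.log K := Real.log_natCast_nonneg K
      calc (m : ℝ) * Real.log K ≤ (t + 1) * Real.log K :=
            mul_le_mul_of_nonneg_right hmle hlogK0
        _ ≤ (t + 1) * (t / 2) := mul_le_mul_of_nonneg_left hlogK (by positivity)
    have h11 : ε ^ (-η) = t ^ 4 := by
      rw [ht, ← Real.rpow_natCast, ← Real.rpow_mul hε0.le]
      congr 1
      push_cast
      ring
    rw [h11]
    have h12 : (t + 1) * (t / 2) ≤ t ^ 4 := by
      have h13 : t ^ 2 ≤ t ^ 4 := by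
        have : 1 ≤ t := by linarith
        exact pow_le_pow_right₀ this (by norm_num)
      nlinarith
    linarith
  · have hidx : ∀ (x : X) (n : ℕ), ⌊ρ x (z n) / (ε / 2)⌋₊ < K := by
      intro x n
      rw [hK, Nat.lt_succ_iff]
      exact Nat.floor_le_floor (div_le_div_of_nonneg_right (hD _ _) (by positivity))
    refine ⟨fun x => finFunctionFinEquiv fun n : Fin m => (⟨⌊ρ x (z n) / (ε / 2)⌋₊, hidx x n⟩ :
      Fin K), fun x y hxy => ?_⟩
    have h14 := finFunctionFinEquiv.injective hxy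
    refine rho'_lt h0 hD hε0 htail fun n hn => ?_
    have h15 := congrFun h14 ⟨n, hn⟩
    simp only [Fin.mk.injEq] at h15
    exact abs_sub_lt_of_floor (h0 _ _) (h0 _ _) (by positivity) h15

end tame

section main

/-- for every dynamically generating `ρ` there is a dynamically generating `ρ'` whose
`∞`-version is at most the `p`-version of `ρ` -/
lemma exists_le {Γ : Type u} [Group Γ] (S : SoficApprox Γ) {X : Type v} [TopologicalSpace X]
    [CompactSpace X] [TopologicalSpace.MetrizableSpace X] [MulAction Γ X] {ρ : X → X → ℝ}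
    (h : IsDynGen Γ ρ) {p : ℝ≥0∞} (hp1 : 1 ≤ p) (hp : p ≠ ∞) :
    ∃ ρ' : X → X → ℝ, IsDynGen Γ ρ' ∧ mdim S ∞ ρ' ≤ mdim S p ρ := by
  rcases isEmpty_or_nonempty X with hX | hX
  · refine ⟨ρ, h, mdim_top_le S h.self h.symm h.triangle h.nonneg ?_ hp1 hp⟩
    intro η _
    filter_upwards [self_mem_nhdsWithin] with ε hε
    refine ⟨1, one_pos, ?_, fun x => isEmptyElim x, fun x => isEmptyElim x⟩
    simp only [Nat.cast_one, Real.log_one]
    exact Real.rpow_nonneg (le_of_lt hε) _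
  · let _ := TopologicalSpace.metrizableSpaceMetric X
    have hsep : TopologicalSpace.SeparableSpace X := inferInstance
    obtain ⟨D, hD⟩ := isCompact_univ.exists_bound_of_continuousOn
      (f := fun q : X × X => ρ q.1 q.2) h.cont.continuousOn
    have hD' : ∀ x y, ρ x y ≤ |D| + 1 := by
      intro x y
      have := hD (x, y) (Set.mem_univ _)
      simp only [Real.norm_eq_abs] at this
      have h1 := le_abs_self (ρ x y)
      have h2 := le_abs_self D
      linarith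
    have hDpos : 0 < |D| + 1 := by positivity
    set z := TopologicalSpace.denseSeq X with hz
    have hzd : DenseRange z := TopologicalSpace.denseRange_denseSeq X
    refine ⟨rho' ρ z, ⟨rho'_self, rho'_symm, rho'_triangle h.nonneg hD',
      rho'_cont h.nonneg hD' h.cont, ?_⟩, ?_⟩
    · intro x y hxy
      obtain ⟨s, hs⟩ := h.gen x y hxy
      exact ⟨s, rho'_pos h.nonneg hD' h.self h.cont hzd hs⟩
    · refine (mdim_top_le S rho'_self rho'_symm (rho'_triangle h.nonneg hD') rho'_nonneg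
        (rho'_tame h.nonneg hD' hDpos) hp1 hp).trans ?_
      exact mdim_mono S rho'_nonneg h.nonneg (rho'_le h.nonneg hD' h.symm h.triangle) hDpos hD'
        (rho'_unif h.nonneg hD' h.self h.cont hzd) p

/-- **The sofic `p`-metric mean dimension equals the sofic metric mean dimension.**
For every countable group `Γ` with a sofic approximation, every action of `Γ` by homeomorphisms
on a compact metrizable space `X` and every `1 ≤ p ≤ ∞`,
`mdim_{Σ,M,p}(X, Γ) = mdim_{Σ,M}(X, Γ)`. -/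
theorem result : ∀ (Γ : Type u) [Group Γ] [Countable Γ] (S : SoficApprox Γ) (X : Type v)
    [TopologicalSpace X] [CompactSpace X] [TopologicalSpace.MetrizableSpace X] [MulAction Γ X]
    [ContinuousConstSMul Γ X] (p : ℝ≥0∞), 1 ≤ p → mdimM S X p = mdimM S X ∞ := by
  intro Γ _ _ S X _ _ _ _ _ p hp1
  refine le_antisymm ?_ ?_
  · exact iInf_mono fun ρ => iInf_mono fun h => mdim_le_top S h hp1
  · by_cases hp : p = ∞
    · rw [hp]
    · refine le_iInf fun ρ => le_iInf fun h => ?_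
      obtain ⟨ρ', h1, h2⟩ := exists_le S h hp1 hp
      exact iInf_le_of_le ρ' (iInf_le_of_le h1 h2)

end main

end Pool.Agent.Results.MP_9d0111_an.PMetricMeanDim
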